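import Pool.Agent.E8helper11.FL.Stm

namespace Pool.Agent.E8helper50.FL

open FL11 SimpleGraph

theorem ball : S_BALL := by
  classical
  intro V _ G d hG hd x r
  induction r with
  | zero =>
    intro C hC
    have hsub : C ⊆ {x} := by
      intro c hc
      have h := hC c hc
      have h0 : G.dist x c = 0 := by omega
      rw [hG.dist_eq_zero_iff] at h0
      simp [h0]
    have := Finset.card_le_card hsub
    simpa using this
  | succ r ih =>
    intro C hC
    let B : Finset V := Finset.univ.filter (fun y => G.dist x y ≤ r)
    have hB : B.card ≤ (d + 1) ^ r := ih B (fun c hc => (Finset.mem_filter.mp hc).2)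
    let F : V → Finset V := fun y => insert y (Finset.univ.filter (fun c => G.Adj y c))
    have hF : ∀ y ∈ B, (F y).card ≤ d + 1 := by
      intro y _
      refine le_trans (Finset.card_insert_le _ _) ?_
      have := hd y (Finset.univ.filter (fun c => G.Adj y c))
        (fun c hc => (Finset.mem_filter.mp hc).2)
      omega
    have hsub : C ⊆ B.biUnion F := by
      intro c hc
      rw [Finset.mem_biUnion]
      by_cases h : G.dist x c ≤ r
      · exact ⟨c, Finset.mem_filter.mpr ⟨Finset.mem_univ _, h⟩, Finset.mem_insert_self _ _⟩
      · have h1 : G.dist x c = r + 1 := by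
          have := hC c hc
          omega
        obtain ⟨w, hw⟩ := (hG.preconnected c x).exists_walk_length_eq_dist
        rw [G.dist_comm, h1] at hw
        cases w with
        | nil => simp at hw
        | @cons _ y _ hadj p =>
          refine ⟨y, Finset.mem_filter.mpr ⟨Finset.mem_univ _, ?_⟩, ?_⟩
          · have h2 := SimpleGraph.dist_le p
            simp only [SimpleGraph.Walk.length_cons] at hw
            rw [G.dist_comm]
            omega
          · exact Finset.mem_insert_of_mem
              (Finset.mem_filter.mpr ⟨Finset.mem_univ _, hadj.symm⟩)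
    calc C.card ≤ (B.biUnion F).card := Finset.card_le_card hsub
      _ ≤ ∑ y ∈ B, (F y).card := Finset.card_biUnion_le
      _ ≤ ∑ _y ∈ B, (d + 1) := Finset.sum_le_sum hF
      _ = B.card * (d + 1) := by simp
      _ ≤ (d + 1) ^ r * (d + 1) := Nat.mul_le_mul_right _ hB
      _ = (d + 1) ^ (r + 1) := (pow_succ _ _).symm

end Pool.Agent.E8helper50.FL
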