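import Pool.Agent.E8helper11.FL.Stm

namespace Pool.Agent.E8helper50.FL

open FL11

theorem sel_aux (M : ℕ → ℕ) : ∀ n a : ℕ, ∃ m, a ≤ m ∧ ∀ C : ℕ → ℕ → Prop,
    (∀ i ≤ m, ∀ T : Finset ℕ, (∀ k ∈ T, i + 2 ≤ k ∧ k ≤ m ∧ C i k) → T.card ≤ M i) →
    ∃ s : ℕ → ℕ, s 0 = a ∧ (∀ j < n, s j < s (j + 1)) ∧ s n ≤ m ∧
      ∀ j k, j < n → s (j + 1) < k → k ≤ s n → ¬ C (s j) k := by
  intro n
  induction n with
  | zero =>
    intro a
    refine ⟨a, le_refl _, fun C _ => ⟨fun _ => a, rfl, ?_, le_refl _, ?_⟩⟩
    · intro j hj; exact absurd hj (Nat.not_lt_zero _)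
    · intro j k hj; exact absurd hj (Nat.not_lt_zero _)
  | succ n ih =>
    intro a
    choose g hga hg using ih
    let b : ℕ → ℕ := fun q => Nat.rec (a + 1) (fun _ x => g x + 1) q
    have hb0 : b 0 = a + 1 := rfl
    have hbs : ∀ q, b (q + 1) = g (b q) + 1 := fun q => rfl
    have hmono : StrictMono b := strictMono_nat_of_lt_succ (fun q => by
      rw [hbs]; exact Nat.lt_succ_of_le (hga _))
    have hab : ∀ q, a + 1 ≤ b q := fun q => by
      rw [← hb0]; exact hmono.monotone (Nat.zero_le q)
    have hsep : ∀ q q', q < q' → g (b q) < b q' := by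
      intro q q' h
      have h1 : b (q + 1) ≤ b q' := hmono.monotone h
      rw [hbs] at h1
      omega
    have hgm : ∀ q ≤ M a, g (b q) ≤ g (b (M a)) := by
      intro q hq
      rcases Nat.lt_or_eq_of_le hq with h | h
      · exact le_of_lt (lt_of_lt_of_le (hsep q (M a) h) (hga _))
      · rw [h]
    have ham : a ≤ g (b (M a)) := by
      have h1 := hab (M a)
      have h2 := hga (b (M a))
      omega
    refine ⟨g (b (M a)), ham, fun C hC => ?_⟩
    have hq : ∃ q ≤ M a, ∀ k, b q < k → k ≤ g (b q) → ¬ C a k := by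
      by_contra hcon
      push Not at hcon
      choose! k hk1 hk2 hk3 using hcon
      have hinj : Set.InjOn k (Finset.range (M a + 1) : Set ℕ) := by
        intro q hq q' hq' he
        have hq1 : q ≤ M a := by
          have := Finset.mem_range.mp (Finset.mem_coe.mp hq); omega
        have hq2 : q' ≤ M a := by
          have := Finset.mem_range.mp (Finset.mem_coe.mp hq'); omega
        rcases lt_trichotomy q q' with h | h | h
        · exfalso
          have h1 := hsep q q' h
          have h2 := hk2 q hq1
          have h3 := hk1 q' hq2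
          omega
        · exact h
        · exfalso
          have h1 := hsep q' q h
          have h2 := hk2 q' hq2
          have h3 := hk1 q hq1
          omega
      have hcard : ((Finset.range (M a + 1)).image k).card = M a + 1 := by
        rw [Finset.card_image_of_injOn hinj, Finset.card_range]
      have := hC a ham ((Finset.range (M a + 1)).image k) (by
        intro x hx
        obtain ⟨q, hq, rfl⟩ := Finset.mem_image.mp hx
        have hq1 : q ≤ M a := by
          have := Finset.mem_range.mp hq; omega
        refine ⟨?_, ?_, hk3 q hq1⟩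
        · have h1 := hab q
          have h2 := hk1 q hq1
          omega
        · exact le_trans (hk2 q hq1) (hgm q hq1))
      omega
    obtain ⟨q, hqM, hqC⟩ := hq
    obtain ⟨s, hs0, hs1, hs2, hs3⟩ := hg (b q) C (by
      intro i hi T hT
      exact hC i (le_trans hi (hgm q hqM)) T (fun k hk =>
        ⟨(hT k hk).1, le_trans (hT k hk).2.1 (hgm q hqM), (hT k hk).2.2⟩))
    refine ⟨fun j => Nat.casesOn j a s, rfl, ?_, le_trans hs2 (hgm q hqM), ?_⟩
    · intro j hj
      rcases j with _ | j
      · change a < s 0
        rw [hs0]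
        have := hab q
        omega
      · exact hs1 j (by omega)
    · intro j k hj h1 h2
      rcases j with _ | j
      · change ¬ C a k
        have h1' : s 0 < k := h1
        have h2' : k ≤ s n := h2
        rw [hs0] at h1'
        exact hqC k h1' (le_trans h2' hs2)
      · exact hs3 j k (by omega) h1 h2

theorem sel : S_SEL := by
  intro M n
  obtain ⟨m, _, h⟩ := sel_aux M n 0
  refine ⟨m, fun C hC => ?_⟩
  obtain ⟨s, _, h1, h2, h3⟩ := h C hC
  exact ⟨s, h1, h2, h3⟩

end Pool.Agent.E8helper50.FL
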